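import Mathlib

namespace Pool.Agent.Q210.Alt

open MeasureTheory Filter Topology Set
open scoped BigOperators

variable {E : Type*}

/-- alternating sum over the subsets of `J` -/
noncomputable def dif (A : ℕ → Set E) (J : Finset ℕ) (Q : Set E → ℝ) (A0 : Set E) : ℝ :=
  ∑ I ∈ J.powerset, (-1 : ℝ) ^ I.card * Q (A0 ∪ ⋃ i ∈ I, A i)

lemma dif_empty (A : ℕ → Set E) (Q : Set E → ℝ) (A0 : Set E) : dif A ∅ Q A0 = Q A0 := by
  simp [dif]

lemma dif_insert (A : ℕ → Set E) {J : Finset ℕ} {a : ℕ} (ha : a ∉ J) (Q : Set E → ℝ)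
    (A0 : Set E) : dif A (insert a J) Q A0 = dif A J Q A0 - dif A J Q (A0 ∪ A a) := by
  unfold dif
  rw [Finset.sum_powerset_insert ha, sub_eq_add_neg, ← Finset.sum_neg_distrib]
  congr 1
  apply Finset.sum_congr rfl
  intro I hI
  have haI : a ∉ I := fun h => ha (Finset.mem_powerset.mp hI h)
  rw [Finset.card_insert_of_notMem haI, Finset.set_biUnion_insert, pow_succ, ← union_assoc]
  ring

lemma dif_sub (A : ℕ → Set E) (J : Finset ℕ) (Q R : Set E → ℝ) (A0 : Set E) :
    dif A J (fun B => Q B - R B) A0 = dif A J Q A0 - dif A J R A0 := by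
  unfold dif
  rw [← Finset.sum_sub_distrib]
  apply Finset.sum_congr rfl
  intro I _
  ring

lemma dif_add (A : ℕ → Set E) (J : Finset ℕ) (Q R : Set E → ℝ) (A0 : Set E) :
    dif A J (fun B => Q B + R B) A0 = dif A J Q A0 + dif A J R A0 := by
  unfold dif
  rw [← Finset.sum_add_distrib]
  apply Finset.sum_congr rfl
  intro I _
  ring

lemma dif_mul_left (A : ℕ → Set E) (J : Finset ℕ) (c : ℝ) (Q : Set E → ℝ) (A0 : Set E) :
    dif A J (fun B => c * Q B) A0 = c * dif A J Q A0 := by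
  unfold dif
  rw [Finset.mul_sum]
  apply Finset.sum_congr rfl
  intro I _
  ring

lemma dif_shift (A : ℕ → Set E) (J : Finset ℕ) (Q : Set E → ℝ) (B A0 : Set E) :
    dif A J (fun C => Q (C ∪ B)) A0 = dif A J Q (A0 ∪ B) := by
  unfold dif
  apply Finset.sum_congr rfl
  intro I _
  rw [union_right_comm]

lemma dif_congr {A A' : ℕ → Set E} {J : Finset ℕ} (h : ∀ i ∈ J, A i = A' i) (Q : Set E → ℝ)
    (A0 : Set E) : dif A J Q A0 = dif A' J Q A0 := by
  unfold dif
  apply Finset.sum_congr rfl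
  intro I hI
  have : (⋃ i ∈ I, A i) = ⋃ i ∈ I, A' i := by
    apply iUnion₂_congr
    intro i hi
    exact h i (Finset.mem_powerset.mp hI hi)
  rw [this]

/-- completely monotone on the class `S` of sets -/
def CM (S : Set (Set E)) (Q : Set E → ℝ) : Prop :=
  ∀ (A : ℕ → Set E), (∀ i, A i ∈ S) → ∀ (J : Finset ℕ), ∀ A0 ∈ S, 0 ≤ dif A J Q A0

variable {S : Set (Set E)}

lemma CM.nonneg {Q : Set E → ℝ} (h : CM S Q) {A0 : Set E} (hA : A0 ∈ S) : 0 ≤ Q A0 := by
  have := h (fun _ => A0) (fun _ => hA) ∅ A0 hA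
  rwa [dif_empty] at this

lemma CM.mono {T : Set (Set E)} {Q : Set E → ℝ} (h : CM S Q) (hT : T ⊆ S) : CM T Q :=
  fun A hA J A0 hA0 => h A (fun i => hT (hA i)) J A0 (hT hA0)

lemma CM.shift (hS : ∀ A ∈ S, ∀ B ∈ S, A ∪ B ∈ S) {Q : Set E → ℝ} (h : CM S Q) {B : Set E}
    (hB : B ∈ S) : CM S (fun A => Q (A ∪ B)) := by
  intro A hA J A0 hA0
  rw [dif_shift]
  exact h A hA J _ (hS _ hA0 _ hB)

lemma CM.delta {Q : Set E → ℝ} (h : CM S Q) {B : Set E}
    (hB : B ∈ S) : CM S (fun A => Q A - Q (A ∪ B)) := by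
  intro A hA J A0 hA0
  rw [dif_sub, dif_shift]
  obtain ⟨a, ha⟩ := Infinite.exists_notMem_finset J
  have h1 := h (Function.update A a B) (fun i => by
    by_cases hi : i = a
    · subst hi; simpa using hB
    · rw [Function.update_of_ne hi]; exact hA i) (insert a J) A0 hA0
  rw [dif_insert _ ha, Function.update_self] at h1
  have hc : ∀ i ∈ J, Function.update A a B i = A i := by
    intro i hi
    apply Function.update_of_ne
    rintro rfl
    exact ha hi
  rw [dif_congr hc, dif_congr hc] at h1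
  exact h1

lemma CM.mul (hS : ∀ A ∈ S, ∀ B ∈ S, A ∪ B ∈ S) {Q R : Set E → ℝ} (hQ : CM S Q) (hR : CM S R) :
    CM S (fun A => Q A * R A) := by
  intro A hA J
  induction J using Finset.induction_on generalizing Q R with
  | empty =>
    intro A0 hA0
    rw [dif_empty]
    exact mul_nonneg (hQ.nonneg hA0) (hR.nonneg hA0)
  | insert a J ha ih =>
    intro A0 hA0
    rw [dif_insert _ ha, ← dif_shift, ← dif_sub]
    have e : (fun B => Q B * R B - Q (B ∪ A a) * R (B ∪ A a)) =
        fun B => (Q B - Q (B ∪ A a)) * R B + Q (B ∪ A a) * (R B - R (B ∪ A a)) := by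
      funext B
      ring
    rw [e, dif_add]
    exact add_nonneg (ih (hQ.delta (hA a)) hR A0 hA0)
      (ih (hQ.shift hS (hA a)) (hR.delta (hA a)) A0 hA0)

lemma CM.const {c : ℝ} (hc : 0 ≤ c) : CM S (fun _ => c) := by
  intro A hA J A0 hA0
  have h : ∀ (J : Finset ℕ) (A0 : Set E), 0 ≤ dif A J (fun _ => c) A0 ∧
      ∀ A1, dif A J (fun _ => c) A0 = dif A J (fun _ => c) A1 := by
    intro J
    induction J using Finset.induction_on with
    | empty =>
      intro A0
      simp [dif_empty, hc]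
    | insert a J ha ih =>
      intro A0
      have e : ∀ A1, dif A (insert a J) (fun _ => c) A1 = 0 := by
        intro A1
        rw [dif_insert _ ha, (ih A1).2 (A1 ∪ A a), sub_self]
      exact ⟨(e A0).ge, fun A1 => by rw [e, e]⟩
  exact (h J A0).1

lemma CM.add {Q R : Set E → ℝ} (hQ : CM S Q) (hR : CM S R) : CM S (fun A => Q A + R A) := by
  intro A hA J A0 hA0
  rw [dif_add]
  exact add_nonneg (hQ A hA J A0 hA0) (hR A hA J A0 hA0)

lemma CM.const_mul {c : ℝ} (hc : 0 ≤ c) {Q : Set E → ℝ} (hQ : CM S Q) :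
    CM S (fun A => c * Q A) := by
  intro A hA J A0 hA0
  rw [dif_mul_left]
  exact mul_nonneg hc (hQ A hA J A0 hA0)

lemma CM.pow (hS : ∀ A ∈ S, ∀ B ∈ S, A ∪ B ∈ S) {Q : Set E → ℝ} (hQ : CM S Q) (k : ℕ) :
    CM S (fun A => Q A ^ k) := by
  induction k with
  | zero =>
    simp only [pow_zero]
    exact CM.const zero_le_one
  | succ k ih =>
    simp only [pow_succ]
    exact ih.mul hS hQ

lemma CM.sum {ι : Type*} (s : Finset ι) {Q : ι → Set E → ℝ} (hQ : ∀ i ∈ s, CM S (Q i)) :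
    CM S (fun A => ∑ i ∈ s, Q i A) := by
  classical
  induction s using Finset.induction_on with
  | empty => simpa using CM.const (S := S) le_rfl
  | insert a s ha ih =>
    simp only [Finset.sum_insert ha]
    exact (hQ a (Finset.mem_insert_self _ _)).add
      (ih (fun i hi => hQ i (Finset.mem_insert_of_mem hi)))

lemma dif_tendsto (hS : ∀ A ∈ S, ∀ B ∈ S, A ∪ B ∈ S) {A : ℕ → Set E} (hA : ∀ i, A i ∈ S)
    {Q : ℕ → Set E → ℝ} {R : Set E → ℝ}
    (hlim : ∀ B ∈ S, Tendsto (fun n => Q n B) atTop (𝓝 (R B))) (J : Finset ℕ) {A0 : Set E}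
    (hA0 : A0 ∈ S) : Tendsto (fun n => dif A J (Q n) A0) atTop (𝓝 (dif A J R A0)) := by
  have hU : ∀ I : Finset ℕ, ∀ A0 ∈ S, A0 ∪ ⋃ i ∈ I, A i ∈ S := by
    intro I
    induction I using Finset.induction_on with
    | empty => intro A0 hA0; simpa using hA0
    | insert a I ha ih =>
      intro A0 hA0
      rw [Finset.set_biUnion_insert, ← union_assoc]
      exact ih _ (hS _ hA0 _ (hA a))
  exact tendsto_finsetSum _ (fun I _ => (hlim _ (hU I A0 hA0)).const_mul _)

lemma CM.of_tendsto (hS : ∀ A ∈ S, ∀ B ∈ S, A ∪ B ∈ S) {Q : ℕ → Set E → ℝ} {R : Set E → ℝ}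
    (hQ : ∀ n, CM S (Q n)) (hlim : ∀ B ∈ S, Tendsto (fun n => Q n B) atTop (𝓝 (R B))) :
    CM S R := by
  intro A hA J A0 hA0
  exact ge_of_tendsto' (dif_tendsto hS hA hlim J hA0) (fun n => hQ n A hA J A0 hA0)

lemma union_mem (hS : ∀ A ∈ S, ∀ B ∈ S, A ∪ B ∈ S) {A : ℕ → Set E} (hA : ∀ i, A i ∈ S)
    (I : Finset ℕ) : ∀ A0 ∈ S, A0 ∪ ⋃ i ∈ I, A i ∈ S := by
  induction I using Finset.induction_on with
  | empty => intro A0 hA0; simpa using hA0
  | insert a I ha ih =>
    intro A0 hA0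
    rw [Finset.set_biUnion_insert, ← union_assoc]
    exact ih _ (hS _ hA0 _ (hA a))

lemma CM.congr (hS : ∀ A ∈ S, ∀ B ∈ S, A ∪ B ∈ S) {Q R : Set E → ℝ} (hQ : CM S Q)
    (h : ∀ B ∈ S, R B = Q B) : CM S R := by
  intro A hA J A0 hA0
  have : dif A J R A0 = dif A J Q A0 :=
    Finset.sum_congr rfl (fun I _ => by rw [h _ (union_mem hS hA I A0 hA0)])
  rw [this]
  exact hQ A hA J A0 hA0

/-- integrals of completely monotone functions -/
lemma CM.integral (hS : ∀ A ∈ S, ∀ B ∈ S, A ∪ B ∈ S) {Ω : Type*} [MeasurableSpace Ω]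
    {P : Measure Ω} {q : Ω → Set E → ℝ} (hq : ∀ ω, CM S (q ω))
    (hint : ∀ A ∈ S, Integrable (fun ω => q ω A) P) : CM S (fun A => ∫ ω, q ω A ∂P) := by
  intro A hA J A0 hA0
  have : dif A J (fun A => ∫ ω, q ω A ∂P) A0 = ∫ ω, dif A J (q ω) A0 ∂P := by
    unfold dif
    rw [integral_finsetSum]
    · apply Finset.sum_congr rfl
      intro I _
      rw [integral_const_mul]
    · intro I _
      exact (hint _ (union_mem hS hA I A0 hA0)).const_mul _
  rw [this]
  exact integral_nonneg (fun ω => hq ω A hA J A0 hA0)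

/-- multiplicative functions with values in `[0, 1]` -/
lemma CM.of_mul {q : Set E → ℝ} (hmul : ∀ A B, q (A ∪ B) = q A * q B) (h0 : ∀ A, 0 ≤ q A)
    (h1 : ∀ A, q A ≤ 1) : CM S q := by
  intro A _ J
  have h : ∀ (J : Finset ℕ) (A0 : Set E), ∃ r : ℝ, 0 ≤ r ∧ ∀ A1, dif A J q A1 = q A1 * r := by
    intro J
    induction J using Finset.induction_on with
    | empty =>
      intro A0
      exact ⟨1, zero_le_one, fun A1 => by rw [dif_empty, mul_one]⟩
    | insert a J ha ih =>
      intro A0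
      obtain ⟨r, hr, hr'⟩ := ih A0
      refine ⟨(1 - q (A a)) * r, mul_nonneg (by linarith [h1 (A a)]) hr, fun A1 => ?_⟩
      rw [dif_insert _ ha, hr', hr', hmul]
      ring
  intro A0 _
  obtain ⟨r, hr, hr'⟩ := h J A0
  rw [hr']
  exact mul_nonneg (h0 _) hr

/-- functions turning unions into minima -/
lemma CM.of_min {g : Set E → ℝ} (hmin : ∀ A B, g (A ∪ B) = min (g A) (g B)) {b : ℝ}
    (h0 : ∀ A, 0 ≤ g A) (hb : ∀ A, g A ≤ b) : CM univ g := by
  classical
  have hb0 : 0 ≤ b := (h0 ∅).trans (hb ∅)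
  have e : g = fun A => ∫ u in Ioc (0 : ℝ) b, (if u < g A then (1 : ℝ) else 0) := by
    funext A
    have h1 : (fun u : ℝ => if u < g A then (1 : ℝ) else 0) = (Iio (g A)).indicator (fun _ => 1) := by
      funext u
      simp [indicator]
    rw [h1, integral_indicator measurableSet_Iio, Measure.restrict_restrict measurableSet_Iio]
    simp only [integral_const, smul_eq_mul, mul_one]
    have h2 : Iio (g A) ∩ Ioc 0 b = Ioo 0 (g A) ∩ Iic b := by
      ext u
      simp only [mem_inter_iff, mem_Iio, mem_Ioc, mem_Ioo, mem_Iic]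
      tauto
    have h3 : Ioo 0 (g A) ∩ Iic b = Ioo 0 (g A) := by
      apply inter_eq_left.mpr
      intro u hu
      exact hu.2.le.trans (hb A)
    rw [h2, h3]
    simp [Measure.real, h0 A]
  rw [e]
  apply CM.integral (fun _ _ _ _ => mem_univ _)
  · intro u
    apply CM.of_mul
    · intro A B
      rw [hmin]
      by_cases h1 : u < g A <;> by_cases h2 : u < g B <;> simp [h1, h2]
    · intro A
      split_ifs <;> norm_num
    · intro A
      split_ifs <;> norm_num
  · intro A _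
    have h1 : (fun u : ℝ => if u < g A then (1 : ℝ) else 0) = (Iio (g A)).indicator (fun _ => 1) := by
      funext u
      simp [indicator]
    rw [h1]
    apply Integrable.indicator _ measurableSet_Iio
    exact integrable_const _

/-- The core: `(T + δ) / (c + δ + b - G)` is completely monotone. -/
lemma core_CM (hS : ∀ A ∈ S, ∀ B ∈ S, A ∪ B ∈ S) {T G : Set E → ℝ} (hT : CM S T) (hG : CM S G)
    {b c δ : ℝ} (hGb : ∀ A ∈ S, G A ≤ b) (hc : 0 ≤ c) (hδ : 0 < δ) :
    CM S (fun A => (T A + δ) * (c + δ + b - G A)⁻¹) := by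
  apply CM.mul hS (hT.add (CM.const hδ.le))
  by_cases hne : ∃ A, A ∈ S
  · obtain ⟨A1, hA1⟩ := hne
    have hb : 0 ≤ b := (hG.nonneg hA1).trans (hGb A1 hA1)
    have hC : 0 < c + δ + b := by linarith
    apply CM.of_tendsto hS (Q := fun n A => ∑ k ∈ Finset.range n,
      (c + δ + b)⁻¹ * ((c + δ + b)⁻¹ ^ k * G A ^ k))
    · intro n
      apply CM.sum
      intro k _
      apply CM.const_mul (inv_nonneg.mpr hC.le)
      apply CM.const_mul (pow_nonneg (inv_nonneg.mpr hC.le) k)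
      exact hG.pow hS k
    · intro A hA
      have hG0 := hG.nonneg hA
      have hGA := hGb A hA
      have hlt : (c + δ + b)⁻¹ * G A < 1 := by
        rw [inv_mul_lt_iff₀ hC]
        linarith
      have h0 : 0 ≤ (c + δ + b)⁻¹ * G A := mul_nonneg (inv_nonneg.mpr hC.le) hG0
      have h1 := (hasSum_geometric_of_lt_one h0 hlt).mul_left (c + δ + b)⁻¹
      have e : (c + δ + b)⁻¹ * (1 - (c + δ + b)⁻¹ * G A)⁻¹ = (c + δ + b - G A)⁻¹ := by
        rw [← mul_inv]
        congr 1
        field_simp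
      rw [e] at h1
      have h2 := h1.tendsto_sum_nat
      simpa only [mul_pow] using h2
  · intro A hA J A0 hA0
    exact absurd ⟨A0, hA0⟩ hne

/-- From complete monotonicity of `1 - V` to the alternation inequality for `V`. -/
lemma alt_of_CM {V : Set E → ℝ} (hV : CM S (fun A => 1 - V A)) {n : ℕ} (hn : n ≠ 0)
    {A : ℕ → Set E} (hA : ∀ i, A i ∈ S) (hcap : (⋂ i ∈ Finset.range n, A i) ∈ S) :
    V (⋂ i ∈ Finset.range n, A i) ≤
      ∑ I ∈ (Finset.range n).powerset.erase ∅, (-1 : ℝ) ^ (I.card + 1) * V (⋃ i ∈ I, A i) := by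
  have h := hV A hA (Finset.range n) _ hcap
  unfold dif at h
  rw [← Finset.add_sum_erase _ _ (Finset.empty_mem_powerset (Finset.range n))] at h
  have h1 : ∀ I ∈ (Finset.range n).powerset.erase ∅,
      (-1 : ℝ) ^ I.card * (1 - V ((⋂ i ∈ Finset.range n, A i) ∪ ⋃ i ∈ I, A i)) =
      (-1 : ℝ) ^ I.card + (-1 : ℝ) ^ (I.card + 1) * V (⋃ i ∈ I, A i) := by
    intro I hI
    rw [Finset.mem_erase, Finset.mem_powerset] at hI
    obtain ⟨j, hj⟩ := Finset.nonempty_iff_ne_empty.mpr hI.1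
    have hsub : (⋂ i ∈ Finset.range n, A i) ⊆ ⋃ i ∈ I, A i := by
      intro y hy
      rw [mem_iInter₂] at hy
      exact mem_biUnion (s := (I : Set ℕ)) hj (hy j (hI.2 hj))
    rw [union_eq_right.mpr hsub, pow_succ]
    ring
  rw [Finset.sum_congr rfl h1, Finset.sum_add_distrib] at h
  have h2 : ∑ I ∈ (Finset.range n).powerset, (-1 : ℤ) ^ I.card = 0 :=
    Finset.sum_powerset_neg_one_pow_card_of_nonempty (by simpa using hn)
  have h3 : ∑ I ∈ (Finset.range n).powerset, (-1 : ℝ) ^ I.card = 0 := by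
    exact_mod_cast h2
  rw [← Finset.add_sum_erase _ _ (Finset.empty_mem_powerset (Finset.range n))] at h3
  simp only [Finset.card_empty, pow_zero, one_mul, Finset.notMem_empty, iUnion_of_empty,
    iUnion_empty, union_empty] at h h3
  linarith

end Pool.Agent.Q210.Alt
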