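import Mathlib

namespace Pool.Agent.Q210.Alt

open MeasureTheory Filter Topology Set
open scoped ENNReal NNReal

/-- The ratio `s / (s + t)` with value `1` for `s = ∞`. -/
noncomputable def ratio (s t : ℝ≥0∞) : ℝ := if s = ⊤ then 1 else (s / (s + t)).toReal

/-- Limits of regularised ratios. -/
lemma ratio_tendsto {s t : ℝ≥0∞} (ht : t ≠ ⊤) {x y : ℕ → ℝ≥0∞} (hx : Monotone x)
    (hy : Monotone y) (hxt : ∀ m, x m ≠ ⊤) (hyt : ∀ m, y m ≠ ⊤) (hxs : ⨆ m, x m = s)
    (hys : ⨆ m, y m = t) :
    Tendsto (fun m : ℕ => (x m).toReal / ((x m).toReal + (y m).toReal + 1 / ((m : ℝ) + 1))) atTop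
      (𝓝 (ratio s t)) := by
  have hδ : Tendsto (fun m : ℕ => 1 / ((m : ℝ) + 1)) atTop (𝓝 0) :=
    tendsto_one_div_add_atTop_nhds_zero_nat
  have hyl : Tendsto (fun m => (y m).toReal) atTop (𝓝 t.toReal) := by
    rw [← hys]
    apply (ENNReal.tendsto_toReal (by rw [hys]; exact ht)).comp
    exact tendsto_atTop_iSup hy
  unfold ratio
  split_ifs with hs
  · -- `s = ∞`
    have hxl : Tendsto (fun m => (x m).toReal) atTop atTop := by
      have h1 : Tendsto x atTop (𝓝 ⊤) := by
        rw [← hs, ← hxs]
        exact tendsto_atTop_iSup hx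
      rw [tendsto_atTop]
      intro b
      filter_upwards [(ENNReal.tendsto_nhds_top_iff_nnreal.mp h1) b.toNNReal] with m hm
      have h2 := (ENNReal.toReal_lt_toReal ENNReal.coe_ne_top (hxt m)).mpr hm
      rw [ENNReal.coe_toReal] at h2
      exact (Real.le_coe_toNNReal b).trans h2.le
    have h2 : Tendsto (fun m : ℕ => (x m).toReal + (y m).toReal + 1 / ((m : ℝ) + 1)) atTop atTop :=
      (hxl.atTop_add hyl).atTop_add hδ
    have h3 : Tendsto (fun m : ℕ => ((y m).toReal + 1 / ((m : ℝ) + 1)) /
        ((x m).toReal + (y m).toReal + 1 / ((m : ℝ) + 1))) atTop (𝓝 0) :=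
      (hyl.add hδ).div_atTop h2
    have h4 := h3.const_sub 1
    rw [sub_zero] at h4
    refine h4.congr (fun m => ?_)
    have h5 : (0 : ℝ) < (x m).toReal + (y m).toReal + 1 / ((m : ℝ) + 1) := by positivity
    rw [eq_div_iff h5.ne', sub_mul, div_mul_cancel₀ _ h5.ne']
    ring
  · have hxl : Tendsto (fun m => (x m).toReal) atTop (𝓝 s.toReal) := by
      rw [← hxs]
      apply (ENNReal.tendsto_toReal (by rw [hxs]; exact hs)).comp
      exact tendsto_atTop_iSup hx
    rw [ENNReal.toReal_div, ENNReal.toReal_add hs ht]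
    by_cases h0 : s.toReal + t.toReal = 0
    · have hs0 : s.toReal = 0 := by
        have h1 := ENNReal.toReal_nonneg (a := s)
        have h2 := ENNReal.toReal_nonneg (a := t)
        linarith
      have hs1 : s = 0 := by
        rcases (ENNReal.toReal_eq_zero_iff s).mp hs0 with h | h
        · exact h
        · exact absurd h hs
      have hx0 : ∀ m, x m = 0 := by
        intro m
        have : x m ≤ s := hxs ▸ le_iSup x m
        rw [hs1] at this
        exact le_antisymm this (zero_le)
      simp only [hx0, hs0]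
      simp
    · have h2 := hxl.div ((hxl.add hyl).add hδ) (by simpa using h0)
      rw [add_zero] at h2
      exact h2

end Pool.Agent.Q210.Alt
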