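import Mathlib
import Pool.Agent.H894R3.Ana

namespace Pool.Agent.Q210.Alt

open MeasureTheory Filter Topology Set Metric
open scoped ENNReal NNReal

section metric

variable {E : Type*} [MetricSpace E] [CompleteSpace E] [TopologicalSpace.SeparableSpace E]
  [MeasurableSpace E] [BorelSpace E] {Ω : Type*} [MeasurableSpace Ω] {X : Ω → Set E}

lemma meas_infEDist (hX : ∀ G : Set E, IsOpen G → MeasurableSet {ω | (X ω ∩ G).Nonempty}) (y : E) :
    Measurable (fun ω => infEDist y (X ω)) := by
  apply measurable_of_Iio
  intro c
  have : (fun ω => infEDist y (X ω)) ⁻¹' Iio c = {ω | (X ω ∩ {z | edist y z < c}).Nonempty} := by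
    ext ω
    simp only [mem_preimage, mem_Iio, infEDist_lt_iff]
    rfl
  rw [this]
  apply hX
  exact isOpen_lt (continuous_const.edist continuous_id) continuous_const

theorem hit_null_metric (hc : ∀ ω, IsClosed (X ω))
    (hX : ∀ G : Set E, IsOpen G → MeasurableSet {ω | (X ω ∩ G).Nonempty})
    (P : Measure Ω) [IsProbabilityMeasure P] {B : Set E} (hB : MeasurableSet B) :
    NullMeasurableSet {ω | (X ω ∩ B).Nonempty} P := by
  rcases isEmpty_or_nonempty E with hE | hE
  · have : {ω | (X ω ∩ B).Nonempty} = ∅ := by
      ext ω
      simp only [mem_empty_iff_false, iff_false]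
      rintro ⟨y, _⟩
      exact hE.false y
    rw [this]
    exact MeasurableSet.empty.nullMeasurableSet
  let x : ℕ → E := TopologicalSpace.denseSeq E
  have hx : DenseRange x := TopologicalSpace.denseRange_denseSeq E
  let Φ : Ω → ℕ → ℝ≥0∞ := fun ω i => infEDist (x i) (X ω)
  have hΦ : Measurable Φ := measurable_pi_lambda _ (fun i => meas_infEDist hX _)
  let T : Set ((ℕ → ℝ≥0∞) × E) := {z | ∀ i, z.1 i ≤ edist (x i) z.2} ∩ Prod.snd ⁻¹' B
  have hT : MeasurableSet T := by
    apply MeasurableSet.inter
    · have : {z : (ℕ → ℝ≥0∞) × E | ∀ i, z.1 i ≤ edist (x i) z.2} =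
          ⋂ i, {z | z.1 i ≤ edist (x i) z.2} := by
        ext z
        simp
      rw [this]
      apply MeasurableSet.iInter
      intro i
      apply measurableSet_le
      · exact (measurable_pi_apply i).comp measurable_fst
      · have : Measurable (fun y : E => edist (x i) y) :=
          (continuous_const.edist continuous_id).measurable
        exact this.comp measurable_snd
    · exact measurable_snd hB
  have hS : AnalyticSet (Prod.fst '' T) := hT.analyticSet_image measurable_fst
  have hμ : IsProbabilityMeasure (P.map Φ) := Measure.isProbabilityMeasure_map hΦ.aemeasurable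
  have hN : NullMeasurableSet (Prod.fst '' T) (P.map Φ) :=
    Pool.Agent.H894R3.Ana.analytic_nullMeasurable (P.map Φ) hS
  have hpre : NullMeasurableSet (Φ ⁻¹' (Prod.fst '' T)) P :=
    hN.preimage ⟨hΦ, Measure.AbsolutelyContinuous.rfl⟩
  have e : {ω | (X ω ∩ B).Nonempty} = Φ ⁻¹' (Prod.fst '' T) := by
    ext ω
    simp only [mem_preimage, mem_image, Prod.exists, exists_and_right, exists_eq_right]
    constructor
    · rintro ⟨y, hy, hyB⟩
      exact ⟨y, fun i => infEDist_le_edist_of_mem hy, hyB⟩
    · rintro ⟨y, hy, hyB⟩
      refine ⟨y, ?_, hyB⟩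
      rw [mem_iff_infEDist_zero_of_closed (hc ω)]
      by_contra hne
      have hpos : 0 < infEDist y (X ω) := pos_iff_ne_zero.mpr hne
      -- choose a point of the dense sequence very near `y`
      have hex : ∃ i, edist (x i) y + edist (x i) y < infEDist y (X ω) := by
        have hopen : IsOpen {z : E | edist z y + edist z y < infEDist y (X ω)} := by
          apply isOpen_lt _ continuous_const
          have h1 : Continuous (fun z : E => edist z y) := continuous_id.edist continuous_const
          exact h1.add h1
        have hmem : y ∈ {z : E | edist z y + edist z y < infEDist y (X ω)} := by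
          simpa using hpos
        obtain ⟨i, hi⟩ := hx.exists_mem_open hopen ⟨y, hmem⟩
        exact ⟨i, hi⟩
      obtain ⟨i, hi⟩ := hex
      have h1 : infEDist (x i) (X ω) ≤ edist (x i) y := hy i
      have h2 : infEDist y (X ω) ≤ edist y (x i) + infEDist (x i) (X ω) := by
        rw [add_comm]
        exact infEDist_le_infEDist_add_edist
      rw [edist_comm y (x i)] at h2
      exact absurd (lt_of_le_of_lt (h2.trans (add_le_add le_rfl h1)) hi) (lt_irrefl _)
  rw [e]
  exact hpre

end metric

variable {E : Type*} [TopologicalSpace E] [PolishSpace E] [MeasurableSpace E] [BorelSpace E]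
  {Ω : Type*} [MeasurableSpace Ω] {X : Ω → Set E}

/-- Borel sets are hit on `P`-measurable events by a random closed set. -/
theorem hit_null (hc : ∀ ω, IsClosed (X ω))
    (hX : ∀ G : Set E, IsOpen G → MeasurableSet {ω | (X ω ∩ G).Nonempty})
    (P : Measure Ω) [IsProbabilityMeasure P] {B : Set E} (hB : MeasurableSet B) :
    NullMeasurableSet {ω | (X ω ∩ B).Nonempty} P := by
  let := TopologicalSpace.upgradeIsCompletelyMetrizable E
  exact hit_null_metric hc hX P hB

end Pool.Agent.Q210.Alt
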